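import Mathlib

/-! Definitions for the construction of focusing solutions of the planar Boltzmann equation. -/

set_option autoImplicit false

namespace Pool.Agent.H339Z.Bz

open MeasureTheory Set Filter Topology

/-- Phase space: position and velocity, the plane being modelled by `ℂ`. -/
abbrev E := ℂ × ℂ

/-- Time dependent functions on phase space. -/
abbrev Fn := ℝ → E → ℝ

/-- `1 / (1 + |v|^2)`. -/
noncomputable def gg (v : ℂ) : ℝ := (1 + ‖v‖ ^ 2)⁻¹

/-- The bracket `sqrt (1 + |v|^2)`. -/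
noncomputable def br (v : ℂ) : ℝ := Real.sqrt (1 + ‖v‖ ^ 2)

/-- The weight. -/
noncomputable def W (β : ℝ) (z : E) : ℝ := gg z.2 ^ 3 * Real.exp (-(β * br z.2) - br z.1)

/-- Directional derivative in phase space. -/
noncomputable def pd (e : E) (H : Fn) : Fn := fun t z => fderiv ℝ (H t) z e

/-- Iterated directional derivatives. -/
noncomputable def dl : List E → Fn → Fn
  | [], H => H
  | e :: l, H => dl l (pd e H)

/-- A word of vectors of norm at most one. -/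
def Un (l : List E) : Prop := ∀ e ∈ l, ‖e‖ ≤ 1

/-- `(1 + e^{iθ}) / 2`. -/
noncomputable def Ac (θ : ℝ) : ℂ := (1 + Complex.exp (θ * Complex.I)) / 2

/-- `(1 - e^{iθ}) / 2`. -/
noncomputable def Bc (θ : ℝ) : ℂ := (1 - Complex.exp (θ * Complex.I)) / 2

/-- The larger one of `Ac θ`, `Bc θ`. -/
noncomputable def Dc (θ : ℝ) : ℂ := if ‖Bc θ‖ ≤ ‖Ac θ‖ then Ac θ else Bc θ

/-- The measure on collision parameters (relative velocity, deviation angle). -/
noncomputable def mu : Measure (ℂ × ℝ) :=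
  (volume : Measure ℂ).prod ((volume : Measure ℝ).restrict (Ioc (-Real.pi) Real.pi))

/-- Majorant of the collision kernel. -/
noncomputable def Km (s : ℝ) (p : ℂ × ℝ) : ℝ :=
  ‖p.1‖ ^ (-2 * s) * (1 + Real.sqrt ‖p.1‖) * ‖Bc p.2‖ ^ (-1 - 2 * s)

/-- Majorant of the collision integrand. -/
noncomputable def maj (s κ τ : ℝ) (X v : ℂ) (p : ℂ × ℝ) : ℝ :=
  Km s p * (min 1 (‖Bc p.2‖ * ‖p.1‖ / κ) * (gg (v - p.1) ^ 3 * Real.exp (-‖X + τ * p.1‖ / 4)) +
    if κ < ‖Bc p.2‖ * ‖p.1‖ then Real.exp (-‖X + τ * (Dc p.2 * p.1)‖ / 4) *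
      (‖Ac p.2‖ ^ 6 * gg (v - Ac p.2 * p.1) ^ 3 + ‖Bc p.2‖ ^ 6 * gg (v - Bc p.2 * p.1) ^ 3)
    else 0)

/-- The collision integrand at velocities `v`, `w` and angle `φ` of the unit vector `σ`. -/
noncomputable def coll (γ : ℝ) (b : ℝ → ℝ) (f : ℂ → ℝ) (v w : ℂ) (φ : ℝ) : ℝ :=
  (f ((v + w) / 2 - (‖v - w‖ / 2 : ℝ) * Complex.exp (φ * Complex.I)) *
      f ((v + w) / 2 + (‖v - w‖ / 2 : ℝ) * Complex.exp (φ * Complex.I)) - f w * f v) *
    (‖v - w‖ ^ γ * b (inner ℝ ((v - w) / (‖v - w‖ : ℝ)) (Complex.exp (φ * Complex.I))))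

end Pool.Agent.H339Z.Bz
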